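import Pool.Agent.H34.ST.Plus1
import Pool.Agent.H34.ST.Plus2
import Pool.Agent.H34.ST.Plus3
import Pool.Agent.H34.ST.FinA
import Pool.Agent.H34.ST.FinB

/-!
# MP_cba86f_co: the star game is a Player 2 win for a set of `n` of lower density at least 3/4
-/

namespace Pool.Agent.Results.MP_cba86f_co.DensityThreeQuarters

open Pool.Agent.H34.ST

/-- Star(n) is a Player 2 win.  `Ed (Fin n)` is the set of the edges of `K_n`; a position assigns to
every edge its status (`St.free`, `St.one`, `St.two`: not claimed, claimed by Player 1, by Player 2);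
`W T k b p` says that Player 2 can force the final position to satisfy `T` from the position `p`, when
`k` moves are left and Player 1 is to move iff `b = true`; `gr q s` is the graph of the edges of
status `s`; `starSize` is the maximum degree. -/
def Player2Wins (n : ℕ) : Prop :=
  W (fun q : Ed (Fin n) → St => starSize (gr q St.one) ≤ starSize (gr q St.two))
    (Fintype.card (Ed (Fin n))) true (fun _ => St.free)

theorem wins_iff (n : ℕ) : Player2Wins n ↔ SW (Fin n) := by
  constructor
  · exact W_mono (fun q hq => (TS_iff q).mpr hq) _ _ _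
  · exact W_mono (fun q hq => (TS_iff q).mp hq) _ _ _

open Classical in
theorem result :
    (∀ n, 4 ≤ n → ¬ Player2Wins n →
      Player2Wins (n + 1) ∧ Player2Wins (n + 2) ∧ (n % 4 ≠ 3 → Player2Wins (n + 3))) ∧
    (3 / 4 : ℝ) ≤ Filter.liminf
      (fun N : ℕ => (((Finset.Icc 1 N).filter Player2Wins).card : ℝ) / N) Filter.atTop := by
  have h : ∀ n, 4 ≤ n → ¬ Player2Wins n →
      Player2Wins (n + 1) ∧ Player2Wins (n + 2) ∧ (n % 4 ≠ 3 → Player2Wins (n + 3)) := by
    intro n hn hw
    rw [wins_iff] at hw
    rw [wins_iff, wins_iff, wins_iff]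
    exact ⟨plus1 n (by omega) hw, plus2 n (by omega) hw, fun h3 => plus3 n hn h3 hw⟩
  exact ⟨h, density_of_gaps Player2Wins h⟩

end Pool.Agent.Results.MP_cba86f_co.DensityThreeQuarters
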