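import Pool.Agent.H2.OS.Cnt

/-!
# MP_cba86f_co: for almost all `n` Player 2 can force each half of a win, at a common level

`Halves n`: for some `m`, Player 2 (moving second) can force his maximum degree to be at least `m`,
and he can force the maximum degree of Player 1 to be at most `m`.  All but at most
`5/2 √((N + 2) log (N + 4)) + 1/2` of the `n ≤ N` have this property; and for such `n` there is no
`k` such that Player 1 can force `Δ(G₂) < k ≤ Δ(G₁)`.
-/

namespace Pool.Agent.Results.MP_cba86f_co.OneSidedHalves

open Pool.Agent.H34.ST Pool.Agent.H2.OS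

open Classical in
theorem result :
    (∀ N : ℕ, (((Finset.Icc 1 N).filter (fun n => ¬ Halves n)).card : ℝ) ≤
      5 / 2 * Real.sqrt ((N + 2) * Real.log (N + 4)) + 1 / 2) ∧
    ∀ n, Halves n → ∀ k,
      ¬ P1Forces n (fun q => starSize (gr q St.two) < k ∧ k ≤ starSize (gr q St.one)) :=
  ⟨count_real, no_threshold⟩

end Pool.Agent.Results.MP_cba86f_co.OneSidedHalves
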