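import Pool.Agent.H2.OS.Cnt

/-!
# MP_cba86f_co: the value `Δ(G₁) - Δ(G₂)` of the star game is zero or one, for every `n`
-/

namespace Pool.Agent.Results.MP_cba86f_co.ValueZeroOrOne

open Pool.Agent.H34.ST Pool.Agent.H2.OS

theorem result (n : ℕ) :
    P1Forces n (fun q => starSize (gr q St.two) ≤ starSize (gr q St.one)) ∧
    P2Forces n (fun q => starSize (gr q St.one) ≤ starSize (gr q St.two) + 1) :=
  ⟨value_ge n, value_le n⟩

end Pool.Agent.Results.MP_cba86f_co.ValueZeroOrOne
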